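import Pool.Agent.H383.PZ.Defs
import Pool.Agent.H401R2.Stir
import Pool.Agent.H295R2.Z

/-!
# Polynomial bound for the zeta function in the strip `-1/2 ≤ Re s ≤ 2`
-/

set_option autoImplicit false

namespace Pool.Agent.H52R4.PZT1

open Complex

theorem norm_le_of {s : ℂ} (h1 : -(3 / 2) ≤ s.re) (h2 : s.re ≤ 2) (h3 : 1 ≤ |s.im|) :
    ‖s‖ + 1 ≤ 4 * |s.im| := by
  have h := Complex.norm_le_abs_re_add_abs_im s
  have h4 : |s.re| ≤ 2 := abs_le.2 ⟨by linarith, h2⟩
  linarith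

theorem zeta_right {s : ℂ} (h1 : 1 / 4 ≤ s.re) (h2 : s.re ≤ 2) (h3 : 1 ≤ |s.im|) :
    ‖riemannZeta s‖ ≤ 80 * |s.im| := by
  have hs : s ≠ 1 := by
    intro h
    rw [h] at h3
    simp at h3
    linarith
  have h4 := H295R2.Zs_norm_le h1
  rw [← H295R2.Zs_eq hs, norm_mul] at h4
  have h5 : |s.im| ≤ ‖s - 1‖ := by
    have := Complex.abs_im_le_norm (s - 1)
    simpa using this
  have h6 := norm_le_of (by linarith) h2 h3
  have h7 : (‖s‖ + 1) ^ 2 ≤ (4 * |s.im|) ^ 2 := pow_le_pow_left₀ (by positivity) h6 2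
  have h8 : |s.im| * ‖riemannZeta s‖ ≤ ‖s - 1‖ * ‖riemannZeta s‖ :=
    mul_le_mul_of_nonneg_right h5 (norm_nonneg _)
  have h9 : |s.im| * ‖riemannZeta s‖ ≤ |s.im| * (80 * |s.im|) := by nlinarith
  exact le_of_mul_le_mul_left h9 (by linarith)

/-- the exponential part of Stirling's formula -/
theorem stir_re {z : ℂ} (hz : 0 < z.re) (hv : 1 ≤ z.im) :
    ((z - 1 / 2) * log z - z).re ≤ (z.re - 1 / 2) * Real.log ‖z‖ - Real.pi * z.im / 2 := by
  have hv0 : 0 < z.im := by linarith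
  have h1 : ((z - 1 / 2) * log z - z).re =
      (z.re - 1 / 2) * Real.log ‖z‖ - z.im * arg z - z.re := by
    rw [Complex.sub_re, Complex.mul_re, Complex.log_re, Complex.log_im]
    simp
  have h2 : Real.pi / 2 - arg z = Real.arctan (z.re / z.im) := by
    have h3 : arg z = Real.arctan (z.im / z.re) := by
      have h4 := Complex.arg_mem_Ioc z
      have h5 : Real.tan (arg z) = z.im / z.re := Complex.tan_arg z
      have h6 : |arg z| < Real.pi / 2 := Complex.abs_arg_lt_pi_div_two_iff.2 (Or.inl hz)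
      rw [← h5, Real.arctan_tan (by linarith [(abs_lt.1 h6).1]) (abs_lt.1 h6).2]
    have h7 : z.re / z.im = (z.im / z.re)⁻¹ := (inv_div _ _).symm
    rw [h3, h7, Real.arctan_inv_of_pos (by positivity)]
  have h3 : Real.arctan (z.re / z.im) ≤ z.re / z.im := by
    have h8 : 0 ≤ Real.arctan (z.re / z.im) := Real.arctan_nonneg.2 (by positivity)
    have h9 := Real.le_tan h8 (Real.arctan_lt_pi_div_two _)
    rwa [Real.tan_arctan] at h9
  have h4 : z.im * Real.arctan (z.re / z.im) ≤ z.re := by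
    calc z.im * Real.arctan (z.re / z.im) ≤ z.im * (z.re / z.im) :=
          mul_le_mul_of_nonneg_left h3 hv0.le
      _ = z.re := by field_simp
  rw [h1]
  have h5 : arg z = Real.pi / 2 - Real.arctan (z.re / z.im) := by linarith
  rw [h5]
  nlinarith

theorem Gamma_le {z : ℂ} (h1 : 3 / 4 ≤ z.re) (h2 : z.re ≤ 3 / 2) (hv : 1 ≤ z.im) :
    ‖Gamma z‖ ≤ 20 * z.im * Real.exp (-(Real.pi * z.im / 2)) := by
  have hz : 0 < z.re := by linarith
  have h3 := H401R2.stirling hz hv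
  have hpi := Real.pi_lt_d2
  have hpi0 := Real.pi_pos
  have h4 : ‖H401R2.sA z / ((√(2 * Real.pi) : ℝ) : ℂ)‖ ≤ 1 + Real.pi / 8 := by
    have h5 : Real.pi / (8 * z.im) ≤ Real.pi / 8 := by
      apply div_le_div_of_nonneg_left hpi0.le (by norm_num) (by linarith)
    calc ‖H401R2.sA z / ((√(2 * Real.pi) : ℝ) : ℂ)‖
        = ‖(H401R2.sA z / ((√(2 * Real.pi) : ℝ) : ℂ) - 1) + 1‖ := by ring_nf
      _ ≤ ‖H401R2.sA z / ((√(2 * Real.pi) : ℝ) : ℂ) - 1‖ + ‖(1 : ℂ)‖ := norm_add_le _ _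
      _ ≤ 1 + Real.pi / 8 := by rw [norm_one]; linarith
  have hs : 0 < √(2 * Real.pi) := by positivity
  have hs3 : √(2 * Real.pi) ≤ 3 := by
    rw [Real.sqrt_le_left (by norm_num)]
    linarith
  have h5 : ‖H401R2.sA z‖ ≤ 5 := by
    rw [norm_div, Complex.norm_real, Real.norm_of_nonneg hs.le, div_le_iff₀ hs] at h4
    nlinarith
  have h6 : Gamma z = H401R2.sA z * exp ((z - 1/2) * log z - z) := by
    unfold H401R2.sA
    rw [mul_assoc, ← Complex.exp_add, neg_add_cancel, Complex.exp_zero, mul_one]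
  have h7 : ‖exp ((z - 1/2) * log z - z)‖ ≤ 4 * z.im * Real.exp (-(Real.pi * z.im / 2)) := by
    rw [Complex.norm_exp]
    have h8 := stir_re hz hv
    refine (Real.exp_le_exp.2 h8).trans ?_
    rw [sub_eq_add_neg, Real.exp_add]
    refine mul_le_mul_of_nonneg_right ?_ (Real.exp_pos _).le
    have him : |z.im| = z.im := abs_of_pos (by linarith)
    have h9 : 1 ≤ ‖z‖ := by
      have := Complex.abs_im_le_norm z
      linarith
    have h10 : ‖z‖ ≤ 4 * z.im := by
      have := norm_le_of (s := z) (by linarith) (by linarith) (by rw [him]; exact hv)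
      rw [him] at this
      linarith
    have h11 : 0 ≤ Real.log ‖z‖ := Real.log_nonneg h9
    calc Real.exp ((z.re - 1 / 2) * Real.log ‖z‖) ≤ Real.exp (Real.log ‖z‖) := by
          apply Real.exp_le_exp.2
          nlinarith
      _ = ‖z‖ := Real.exp_log (by linarith)
      _ ≤ _ := h10
  rw [h6, norm_mul]
  calc ‖H401R2.sA z‖ * ‖exp ((z - 1/2) * log z - z)‖
      ≤ 5 * (4 * z.im * Real.exp (-(Real.pi * z.im / 2))) :=
        mul_le_mul h5 h7 (norm_nonneg _) (by norm_num)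
    _ = _ := by ring

theorem cos_le (z : ℂ) : ‖cos z‖ ≤ Real.exp |z.im| := by
  have h1 : cos z = (exp (z * I) + exp (-z * I)) / 2 := rfl
  rw [h1, norm_div]
  have h2 : ‖exp (z * I)‖ ≤ Real.exp |z.im| := by
    rw [Complex.norm_exp]
    apply Real.exp_le_exp.2
    have : (z * I).re = -z.im := by simp
    rw [this]
    exact neg_le_abs _
  have h3 : ‖exp (-z * I)‖ ≤ Real.exp |z.im| := by
    rw [Complex.norm_exp]
    apply Real.exp_le_exp.2
    have : (-z * I).re = z.im := by simp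
    rw [this]
    exact le_abs_self _
  have h4 := norm_add_le (exp (z * I)) (exp (-z * I))
  have h5 : ‖(2 : ℂ)‖ = 2 := by simp
  rw [h5]
  linarith

theorem Gamma_cos_pos {z : ℂ} (h1 : 3 / 4 ≤ z.re) (h2 : z.re ≤ 3 / 2) (hv : 1 ≤ z.im) :
    ‖Gamma z‖ * ‖cos (Real.pi * z / 2)‖ ≤ 20 * z.im := by
  have h3 := Gamma_le h1 h2 hv
  have h4 := cos_le (Real.pi * z / 2)
  have h5 : ((Real.pi : ℂ) * z / 2).im = Real.pi * z.im / 2 := by
    have : (Real.pi : ℂ) * z / 2 = ((Real.pi / 2 : ℝ) : ℂ) * z := by push_cast; ring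
    rw [this, Complex.im_ofReal_mul]
    ring
  have hpi := Real.pi_pos
  have h6 : |Real.pi * z.im / 2| = Real.pi * z.im / 2 := abs_of_nonneg (by positivity)
  rw [h5, h6] at h4
  calc ‖Gamma z‖ * ‖cos (Real.pi * z / 2)‖
      ≤ (20 * z.im * Real.exp (-(Real.pi * z.im / 2))) * Real.exp (Real.pi * z.im / 2) :=
        mul_le_mul h3 h4 (norm_nonneg _) (by positivity)
    _ = 20 * z.im * (Real.exp (-(Real.pi * z.im / 2)) * Real.exp (Real.pi * z.im / 2)) := by ring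
    _ = 20 * z.im := by rw [← Real.exp_add, neg_add_cancel, Real.exp_zero, mul_one]

theorem Gamma_cos {z : ℂ} (h1 : 3 / 4 ≤ z.re) (h2 : z.re ≤ 3 / 2) (hv : 1 ≤ |z.im|) :
    ‖Gamma z‖ * ‖cos (Real.pi * z / 2)‖ ≤ 20 * |z.im| := by
  rcases le_or_gt 0 z.im with h | h
  · rw [abs_of_nonneg h] at hv ⊢
    exact Gamma_cos_pos h1 h2 hv
  · rw [abs_of_neg h] at hv ⊢
    have h3 := Gamma_cos_pos (z := (starRingEnd ℂ) z) (by simpa using h1) (by simpa using h2)
      (by simpa using hv)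
    have h4 : (Real.pi : ℂ) * (starRingEnd ℂ) z / 2 = (starRingEnd ℂ) (Real.pi * z / 2) := by
      have h5 : (Real.pi : ℂ) * z / 2 = ((Real.pi / 2 : ℝ) : ℂ) * z := by push_cast; ring
      rw [h5, map_mul, Complex.conj_ofReal]
      push_cast
      ring
    rw [h4, Complex.cos_conj, Complex.Gamma_conj, Complex.norm_conj, Complex.norm_conj] at h3
    simpa using h3

theorem zeta_left {s : ℂ} (h1 : -(1 / 2) ≤ s.re) (h2 : s.re ≤ 1 / 4) (h3 : 1 ≤ |s.im|) :
    ‖riemannZeta s‖ ≤ 3200 * |s.im| ^ 2 := by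
  have hre : (1 - s).re = 1 - s.re := by simp
  have him : (1 - s).im = -s.im := by simp
  have habs : |(1 - s).im| = |s.im| := by rw [him, abs_neg]
  have h4 : ∀ n : ℕ, (1 - s) ≠ -n := by
    intro n h
    have h5 := congrArg Complex.re h
    rw [hre] at h5
    simp at h5
    have : (0 : ℝ) ≤ n := Nat.cast_nonneg n
    linarith
  have h5 : (1 - s) ≠ 1 := by
    intro h
    rw [← habs, h] at h3
    simp at h3
    linarith
  have h6 := riemannZeta_one_sub h4 h5
  rw [sub_sub_cancel] at h6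
  have h7 := Gamma_cos (z := 1 - s) (by linarith) (by linarith) (by rw [habs]; exact h3)
  have h8 := zeta_right (s := 1 - s) (by linarith) (by linarith) (by rw [habs]; exact h3)
  rw [habs] at h7 h8
  have h9 : ‖(2 * Real.pi : ℂ) ^ (-(1 - s))‖ ≤ 1 := by
    have h10 : (2 * Real.pi : ℂ) = ((2 * Real.pi : ℝ) : ℂ) := by push_cast; rfl
    rw [h10, Complex.norm_cpow_eq_rpow_re_of_pos (by positivity)]
    apply Real.rpow_le_one_of_one_le_of_nonpos
    · have := Real.pi_gt_three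
      linarith
    · simp
      linarith
  rw [h6, norm_mul, norm_mul, norm_mul, norm_mul]
  have h10 : ‖(2 : ℂ)‖ = 2 := by simp
  rw [h10]
  have h11 : 2 * ‖(2 * Real.pi : ℂ) ^ (-(1 - s))‖ ≤ 2 := by linarith
  calc 2 * ‖(2 * Real.pi : ℂ) ^ (-(1 - s))‖ * ‖Gamma (1 - s)‖ * ‖cos (Real.pi * (1 - s) / 2)‖ *
        ‖riemannZeta (1 - s)‖
      = 2 * ‖(2 * Real.pi : ℂ) ^ (-(1 - s))‖ * (‖Gamma (1 - s)‖ *
        ‖cos (Real.pi * (1 - s) / 2)‖) * ‖riemannZeta (1 - s)‖ := by ring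
    _ ≤ 2 * (20 * |s.im|) * (80 * |s.im|) := by
        apply mul_le_mul (mul_le_mul h11 h7 (by positivity) (by norm_num)) h8 (norm_nonneg _)
          (by positivity)
    _ = 3200 * |s.im| ^ 2 := by ring

/-- TASK T1 -/
theorem zeta_strip : ∃ C : ℝ, 0 < C ∧ ∀ s : ℂ, -(1/2) ≤ s.re → s.re ≤ 2 → 1 ≤ |s.im| →
    ‖riemannZeta s‖ ≤ C * |s.im| ^ 2 := by
  refine ⟨3200, by norm_num, fun s h1 h2 h3 => ?_⟩
  rcases le_or_gt s.re (1 / 4) with h | h
  · exact zeta_left h1 h h3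
  · have h4 := zeta_right h.le h2 h3
    nlinarith

end Pool.Agent.H52R4.PZT1
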